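import Pool.Agent.FSI.MFin
import Pool.Agent.H97Tau.Main

/-!
# Q1 is independent of ZFC

Q1: for every set of reals `A`, every open omega-cover of `A` contains a tau-cover iff every open
omega-cover of `A` contains a gamma-cover.

(1) There is a countable transitive model `M` of ZFC in which Q1 is true; in `M` both properties hold
exactly for the countable sets of reals.
(2) (theorem of ZFC) The continuum hypothesis implies that Q1 is false.
(3) For `M = Set.univ` (the whole universe) the notions of the model are the usual ones.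

The notions of `M` are defined in `Pool/Agent/FSI/MDefs.lean`: a real `r` is in `M` if its Dedekind
cut `qZ r` is in `M`, a set of reals `A` is in `M` if `sZ A = {qZ r : r ∈ A}` is in `M`, a family `C` of subsets
of `A` is in `M` if `fZ C = {sZ U : U ∈ C}` is in `M`. In `OT M A` and `OG M A` the covers and the
subfamilies are restricted to those which are in `M`; being open, finite, infinite, an omega-, tau- or
gamma-cover does not depend on the model. `Ctb M A`: `A` is countable in `M`.
-/

open scoped Cardinal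

namespace Pool.Agent.Results.MP_d9033c_gt.Independence

open Pool.Agent.FSI Pool.Agent.H97Tau

/-- Q1 holds in `M`. -/
def Q1 (M : Set ZFSet.{0}) : Prop := ∀ A : Set ℝ, sZ A ∈ M → (OT M A ↔ OG M A)

theorem result :
    -- (1)
    (∃ M, IsCTM M ∧ Q1 M ∧ ∀ A : Set ℝ, sZ A ∈ M → (OT M A ↔ Ctb M A) ∧ (OG M A ↔ Ctb M A)) ∧
    -- (2)
    ((𝔠 : Cardinal.{0}) = ℵ₁ → ¬ Q1 Set.univ) ∧
    -- (3)
    (Q1 Set.univ ↔ ∀ A : Set ℝ, (∀ C : Set (Set A), IsOmegaCover C → ∃ D ⊆ C, IsTauCover D) ↔
      ∀ C : Set (Set A), IsOmegaCover C → ∃ D ⊆ C, IsGammaCover D) := by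
  refine ⟨?_, ?_, ?_⟩
  · obtain ⟨M, h1, h2⟩ := exists_model
    exact ⟨M, h1, fun A hA => (h2 A hA).1.trans (h2 A hA).2.symm, h2⟩
  · intro hc hQ
    obtain ⟨A, ⟨C, h1, -, h2⟩, -, h3⟩ := main2 ℵ₁ (Or.inl le_rfl) ∅ (by simp) (by simp)
    obtain ⟨D, hD, hD'⟩ := og_univ.1 ((hQ A trivial).1 (ot_univ.2 (h3 hc.le))) C h1
    exact h2 D hD hD'
  · constructor
    · intro h A
      exact ot_univ.symm.trans ((h A trivial).trans og_univ)
    · intro h A _
      exact ot_univ.trans ((h A).trans og_univ.symm)

end Pool.Agent.Results.MP_d9033c_gt.Independence
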