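import Pool.Agent.H97Tau.Main

/-!
Sets of reals with an open `τ`-cover that contains no `γ`-cover, while prescribed `ω`-covers
contain `τ`-covers.
-/

open scoped Cardinal

namespace Pool.Agent.Results.MP_d9033c_gt.TauWithoutGamma

open Pool.Agent.H97Tau

/-- Let `κ` be a cardinal which is at most `ℵ₁`, or such that every set of reals of cardinality
less than `κ` satisfies `binom(Ω,Γ)`. Let `G` be a collection of at most `κ` families of open sets
of reals. Then there is a set of reals `X` with an open cover which is an `ω`-cover and a `τ`-cover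
and contains no `γ`-cover, such that for every `H` in `G` whose traces on `X` form an `ω`-cover of
`X` this `ω`-cover contains a `τ`-cover; and if `κ` is at least the continuum, then every open
`ω`-cover of `X` contains a `τ`-cover. -/
theorem result (κ : Cardinal.{0})
    (hκ : κ ≤ ℵ₁ ∨ ∀ Y : Set ℝ, #Y < κ →
      ∀ C : Set (Set Y), IsOmegaCover C → ∃ D ⊆ C, IsGammaCover D)
    (G : Set (Set (Set ℝ))) (hGκ : #G ≤ κ) (hG : ∀ H ∈ G, ∀ U ∈ H, IsOpen U) :
    ∃ X : Set ℝ,
      (∃ C : Set (Set X), IsOmegaCover C ∧ IsTauCover C ∧ ∀ D ⊆ C, ¬ IsGammaCover D) ∧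
      (∀ H ∈ G, IsOmegaCover (trace H X) → ∃ D ⊆ trace H X, IsTauCover D) ∧
      (𝔠 ≤ κ → ∀ C : Set (Set X), IsOmegaCover C → ∃ D ⊆ C, IsTauCover D) :=
  main2 κ hκ G hGκ hG

end Pool.Agent.Results.MP_d9033c_gt.TauWithoutGamma
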